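import Pool.Agent.Helper76.Fuchs.Energy1

/-!
# FU-A, part 3: a measure of finite energy
-/

namespace Pool.Agent.Helper97.Fuchs

open MeasureTheory Matrix Filter Topology
open scoped MatrixGroups ENNReal BigOperators

noncomputable section

namespace FA

def zz (s : ℝ) : ℂ := ⟨1, s⟩

lemma zz_ne (s : ℝ) : zz s ≠ 0 := by
  intro h
  have := congrArg Complex.re h
  simp [zz] at this

lemma continuous_zz : Continuous zz := by
  have : zz = fun s : ℝ => (1 : ℂ) + (s : ℂ) * Complex.I := by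
    ext s
    apply Complex.ext <;> simp [zz]
  rw [this]
  fun_prop

/-- the curve -/
def phi (s : ℝ) : S1 := ⟨zz s / (‖zz s‖ : ℂ), by
  have h0 : ‖zz s‖ ≠ 0 := by simpa using zz_ne s
  simp [h0]⟩

lemma continuous_phi : Continuous phi := by
  apply Continuous.subtype_mk
  refine continuous_zz.div (Complex.continuous_ofReal.comp continuous_zz.norm) ?_
  intro s
  simpa using zz_ne s

lemma wedge_phi (s t : ℝ) : wedge (phi s) (phi t) = (t - s) / (‖zz s‖ * ‖zz t‖) := by
  have hs : ‖zz s‖ ≠ 0 := by simpa using zz_ne s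
  have ht : ‖zz t‖ ≠ 0 := by simpa using zz_ne t
  have e : ∀ u : ℝ, ((phi u : S1) : ℂ) = ((‖zz u‖⁻¹ : ℝ) : ℂ) * zz u := by
    intro u
    show zz u / (‖zz u‖ : ℂ) = _
    push_cast
    rw [div_eq_inv_mul]
  rw [e, e]
  unfold wedge
  simp only [Complex.mul_re, Complex.mul_im, Complex.ofReal_re, Complex.ofReal_im]
  have h1 : ∀ u, (zz u).re = 1 := fun _ => rfl
  have h2 : ∀ u, (zz u).im = u := fun _ => rfl
  simp only [h1, h2]
  field_simp
  ring

lemma norm_zz_le {s : ℝ} (h : s ∈ Set.Icc (0 : ℝ) 1) : ‖zz s‖ ^ 2 ≤ 2 := by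
  rw [Complex.sq_norm, Complex.normSq_apply]
  show 1 * 1 + s * s ≤ 2
  nlinarith [h.1, h.2]

lemma kap_phi_le {s t : ℝ} (hs : s ∈ Set.Icc (0 : ℝ) 1) (ht : t ∈ Set.Icc (0 : ℝ) 1)
    (hst : t ≠ s) : kap (phi s) (phi t) ≤ ENNReal.ofReal (Real.log 2 - Real.log (t - s)) := by
  have hs0 : 0 < ‖zz s‖ := by simpa using zz_ne s
  have ht0 : 0 < ‖zz t‖ := by simpa using zz_ne t
  have hne : t - s ≠ 0 := sub_ne_zero.2 hst
  have hw : wedge (phi s) (phi t) ≠ 0 := by
    rw [wedge_phi]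
    positivity
  rw [kap_of_ne hw]
  apply ENNReal.ofReal_le_ofReal
  rw [wedge_phi, Real.log_abs, Real.log_div hne (by positivity)]
  have h2 : ‖zz s‖ * ‖zz t‖ ≤ 2 := by
    nlinarith [norm_zz_le hs, norm_zz_le ht, sq_nonneg (‖zz s‖ - ‖zz t‖)]
  have h3 := Real.log_le_log (by positivity) h2
  linarith

/-- the starting measure -/
def th0 : Measure S1 := (volume.restrict (Set.Icc (0 : ℝ) 1)).map phi

instance : IsProbabilityMeasure th0 := by
  have : IsProbabilityMeasure (volume.restrict (Set.Icc (0 : ℝ) 1)) := by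
    constructor
    simp
  exact Measure.isProbabilityMeasure_map continuous_phi.measurable.aemeasurable

attribute [local irreducible] kap en

lemma log_int_finite :
    ∫⁻ u : ℝ, (Set.Icc (-1 : ℝ) 1).indicator
      (fun u => ENNReal.ofReal (Real.log 2 - Real.log u)) u < ⊤ := by
  rw [lintegral_indicator measurableSet_Icc]
  have h1 : IntegrableOn (fun u : ℝ => Real.log 2 - Real.log u) (Set.Icc (-1) 1) := by
    have h2 : IntervalIntegrable (fun u : ℝ => Real.log 2 - Real.log u) volume (-1) 1 :=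
      intervalIntegrable_const.sub intervalIntegral.intervalIntegrable_log'
    rw [intervalIntegrable_iff_integrableOn_Icc_of_le (by norm_num)] at h2
    exact h2
  exact (lintegral_ofReal_le_lintegral_enorm _).trans_lt h1.hasFiniteIntegral

lemma en_th0 : en th0 ≠ ⊤ := by
  have hmk : Measurable fun x : S1 => ∫⁻ y : S1, kap x y ∂th0 :=
    measurable_kap.lintegral_prod_right' (ν := th0)
  have b1 : ∫⁻ x : S1, ∫⁻ y : S1, kap x y ∂th0 ∂th0 =
      ∫⁻ s in Set.Icc (0 : ℝ) 1, ∫⁻ y : S1, kap (phi s) y ∂th0 :=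
    lintegral_map hmk continuous_phi.measurable
  have b2 : ∀ s : ℝ, ∫⁻ y : S1, kap (phi s) y ∂th0 =
      ∫⁻ t in Set.Icc (0 : ℝ) 1, kap (phi s) (phi t) := by
    intro s
    have hm : Measurable fun y : S1 => kap (phi s) y :=
      measurable_kap.comp (measurable_const.prodMk measurable_id)
    exact lintegral_map hm continuous_phi.measurable
  rw [en_eq, b1]
  simp_rw [b2]
  set C := ∫⁻ u : ℝ, (Set.Icc (-1 : ℝ) 1).indicator
      (fun u => ENNReal.ofReal (Real.log 2 - Real.log u)) u with hC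
  have h1 : ∀ s ∈ Set.Icc (0 : ℝ) 1, ∫⁻ t in Set.Icc (0 : ℝ) 1, kap (phi s) (phi t) ≤ C := by
    intro s hs
    have h2 : ∫⁻ t in Set.Icc (0 : ℝ) 1, kap (phi s) (phi t) ≤
        ∫⁻ t in Set.Icc (0 : ℝ) 1, (Set.Icc (-1 : ℝ) 1).indicator
          (fun u => ENNReal.ofReal (Real.log 2 - Real.log u)) (t - s) := by
      refine lintegral_mono_ae ?_
      have h3 : ∀ᵐ t ∂(volume.restrict (Set.Icc (0 : ℝ) 1)), t ∈ Set.Icc (0 : ℝ) 1 :=
        ae_restrict_mem measurableSet_Icc
      have h4 : ∀ᵐ t ∂(volume.restrict (Set.Icc (0 : ℝ) 1)), t ≠ s :=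
        ae_restrict_of_ae (Measure.ae_ne volume s)
      filter_upwards [h3, h4] with t ht hts
      have hmem : t - s ∈ Set.Icc (-1 : ℝ) 1 := ⟨by linarith [ht.1, hs.2], by linarith [ht.2, hs.1]⟩
      rw [Set.indicator_of_mem hmem]
      exact kap_phi_le hs ht hts
    refine h2.trans ((setLIntegral_le_lintegral _ _).trans (le_of_eq ?_))
    exact lintegral_sub_right_eq_self (μ := volume) (fun u : ℝ => (Set.Icc (-1 : ℝ) 1).indicator
          (fun u => ENNReal.ofReal (Real.log 2 - Real.log u)) u) s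
  have h5 : ∫⁻ s in Set.Icc (0 : ℝ) 1, ∫⁻ t in Set.Icc (0 : ℝ) 1, kap (phi s) (phi t) ≤
      ∫⁻ _s in Set.Icc (0 : ℝ) 1, C := setLIntegral_mono' measurableSet_Icc h1
  refine ne_top_of_le_ne_top ?_ h5
  rw [setLIntegral_const]
  simp
  exact log_int_finite.ne

end FA

end

end Pool.Agent.Helper97.Fuchs
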