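import Pool.Agent.Helper76.Fuchs.Energy2
import Pool.Agent.Helper76.Fuchs.Energy3

/-!
# FU-A: a stationary measure with positive drift
-/

namespace Pool.Agent.Helper97.Fuchs

open MeasureTheory Matrix Filter Topology
open scoped MatrixGroups ENNReal BigOperators BoundedContinuousFunction

noncomputable section

variable {ι : Type} [Fintype ι]

namespace FA

attribute [local irreducible] kap en

/-- coordinates as continuous functions -/
def cre : C(S1, ℝ) := ⟨fun x => (x : ℂ).re, by fun_prop⟩
def cim : C(S1, ℝ) := ⟨fun x => (x : ℂ).im, by fun_prop⟩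

/-- moments determine a finite measure on the circle -/
lemma eq_of_mo (μ ν : Measure S1) [IsFiniteMeasure μ] [IsFiniteMeasure ν]
    (h : ∀ a b, mo a b μ = mo a b ν) : μ = ν := by
  have hA : (Algebra.adjoin ℝ ({cre, cim} : Set C(S1, ℝ))).topologicalClosure = ⊤ := by
    apply ContinuousMap.subalgebra_topologicalClosure_eq_top_of_separatesPoints
    intro x y hxy
    by_cases h1 : (x : ℂ).re = (y : ℂ).re
    · refine ⟨fun z => (z : ℂ).im, ⟨cim, Algebra.subset_adjoin (by simp), rfl⟩, ?_⟩
      intro h2
      exact hxy (Subtype.ext (Complex.ext h1 h2))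
    · exact ⟨fun z => (z : ℂ).re, ⟨cre, Algebra.subset_adjoin (by simp), rfl⟩, h1⟩
  have hmon : ∀ f ∈ Submonoid.closure ({cre, cim} : Set C(S1, ℝ)), ∃ a b : ℕ,
      ∀ x, f x = mon a b x := by
    intro f hf
    induction hf using Submonoid.closure_induction with
    | mem f hf =>
      rcases hf with rfl | hf
      · exact ⟨1, 0, fun x => by simp [mon, cre]⟩
      · rw [Set.mem_singleton_iff] at hf
        subst hf
        exact ⟨0, 1, fun x => by simp [mon, cim]⟩
    | one => exact ⟨0, 0, fun x => by simp [mon]⟩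
    | mul f g _ _ hf hg =>
      obtain ⟨a, b, hf⟩ := hf
      obtain ⟨c, d, hg⟩ := hg
      refine ⟨a + c, b + d, fun x => ?_⟩
      rw [ContinuousMap.mul_apply, hf, hg]
      unfold mon
      ring
  have hint : ∀ f : C(S1, ℝ), Integrable f μ ∧ Integrable f ν := fun f =>
    ⟨integrable_of_cont μ f.continuous, integrable_of_cont ν f.continuous⟩
  have hadj : ∀ f ∈ Algebra.adjoin ℝ ({cre, cim} : Set C(S1, ℝ)),
      ∫ x, f x ∂μ = ∫ x, f x ∂ν := by
    intro f hf
    have hf' : f ∈ Submodule.span ℝ (Submonoid.closure ({cre, cim} : Set C(S1, ℝ)) :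
        Set C(S1, ℝ)) := by
      rw [← Algebra.adjoin_eq_span]
      exact hf
    clear hf
    induction hf' using Submodule.span_induction with
    | mem f hf =>
      obtain ⟨a, b, hab⟩ := hmon f hf
      simp_rw [hab]
      exact h a b
    | zero => simp
    | add f g _ _ hf hg =>
      simp only [ContinuousMap.add_apply]
      rw [integral_add (hint f).1 (hint g).1, integral_add (hint f).2 (hint g).2, hf, hg]
    | smul c f _ hf =>
      simp only [ContinuousMap.smul_apply, smul_eq_mul]
      rw [integral_const_mul, integral_const_mul, hf]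
  apply ext_of_forall_integral_eq_of_IsFiniteMeasure
  intro f
  let F : C(S1, ℝ) := f.toContinuousMap
  by_contra hne
  set M : ℝ := μ.real Set.univ + ν.real Set.univ + 1 with hM
  have hM0 : 0 < M := by positivity
  have hd : 0 < |∫ x, f x ∂μ - ∫ x, f x ∂ν| := abs_pos.2 (sub_ne_zero.2 hne)
  set ε := |∫ x, f x ∂μ - ∫ x, f x ∂ν| / M with hε
  have hε0 : 0 < ε := div_pos hd hM0
  have hF : F ∈ (Algebra.adjoin ℝ ({cre, cim} : Set C(S1, ℝ))).topologicalClosure := by
    rw [hA]; trivial
  obtain ⟨g, hg, hgF⟩ := Metric.mem_closure_iff.1 hF ε hε0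
  have hb : ∀ x, ‖F x - g x‖ ≤ ε := by
    intro x
    have := (ContinuousMap.dist_apply_le_dist (f := F) (g := g) x).trans hgF.le
    rwa [Real.dist_eq] at this
  have e1 : |∫ x, f x ∂μ - ∫ x, g x ∂μ| ≤ ε * μ.real Set.univ := by
    have : ∫ x, f x ∂μ - ∫ x, g x ∂μ = ∫ x, (F x - g x) ∂μ :=
      (integral_sub (hint F).1 (hint g).1).symm
    rw [this]
    exact norm_integral_le_of_norm_le_const (Eventually.of_forall hb)
  have e2 : |∫ x, f x ∂ν - ∫ x, g x ∂ν| ≤ ε * ν.real Set.univ := by
    have : ∫ x, f x ∂ν - ∫ x, g x ∂ν = ∫ x, (F x - g x) ∂ν :=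
      (integral_sub (hint F).2 (hint g).2).symm
    rw [this]
    exact norm_integral_le_of_norm_le_const (Eventually.of_forall hb)
  have e3 := hadj g hg
  have e4 : |∫ x, f x ∂μ - ∫ x, f x ∂ν| ≤ ε * (M - 1) := by
    have e5 : ∫ x, f x ∂μ - ∫ x, f x ∂ν = (∫ x, f x ∂μ - ∫ x, g x ∂μ) -
        (∫ x, f x ∂ν - ∫ x, g x ∂ν) := by rw [e3]; ring
    rw [e5]
    refine (abs_sub _ _).trans ?_
    rw [hM]
    linarith
  have e6 : |∫ x, f x ∂μ - ∫ x, f x ∂ν| = ε * M := by
    rw [hε]
    field_simp
  linarith

/-- the antipodal map -/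
def ant (x : S1) : S1 := -x

lemma continuous_ant : Continuous ant := continuous_neg

lemma coe_ant (x : S1) : ((ant x : S1) : ℂ) = -(x : ℂ) := rfl

lemma circ_ant (g : SL(2, ℝ)) (x : S1) : circ g (ant x) = ant (circ g x) := by
  apply Subtype.ext
  rw [coe_ant, coe_circ, coe_circ, coe_ant, lin_neg, norm_neg, neg_div]

lemma mon_ant (a b : ℕ) (x : S1) : mon a b (ant x) = (-1) ^ (a + b) * mon a b x := by
  unfold mon
  rw [coe_ant, Complex.neg_re, Complex.neg_im, neg_pow, neg_pow (x : ℂ).im, pow_add]
  ring

/-- symmetrisation -/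
def sym (m : Measure S1) : Measure S1 :=
  ENNReal.ofReal (1 / 2) • m + ENNReal.ofReal (1 / 2) • m.map ant

lemma sym_prob (m : Measure S1) [IsProbabilityMeasure m] : IsProbabilityMeasure (sym m) := by
  have : IsProbabilityMeasure (m.map ant) :=
    Measure.isProbabilityMeasure_map continuous_ant.measurable.aemeasurable
  constructor
  unfold sym
  rw [Measure.add_apply, Measure.smul_apply, Measure.smul_apply, measure_univ, measure_univ,
    smul_eq_mul, mul_one, ← ENNReal.ofReal_add (by norm_num) (by norm_num)]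
  norm_num

lemma integral_sym (m : Measure S1) [IsProbabilityMeasure m] {f : S1 → ℝ} (hf : Continuous f) :
    ∫ x, f x ∂(sym m) = 1 / 2 * ∫ x, f x ∂m + 1 / 2 * ∫ x, f (ant x) ∂m := by
  have : IsProbabilityMeasure (m.map ant) :=
    Measure.isProbabilityMeasure_map continuous_ant.measurable.aemeasurable
  unfold sym
  rw [integral_add_measure ((integrable_of_cont _ hf).smul_measure ENNReal.ofReal_ne_top)
    ((integrable_of_cont _ hf).smul_measure ENNReal.ofReal_ne_top),
    integral_smul_measure, integral_smul_measure, ENNReal.toReal_ofReal (by norm_num), smul_eq_mul,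
    smul_eq_mul, integral_map continuous_ant.measurable.aemeasurable
      hf.measurable.aestronglyMeasurable]

lemma mo_sym_map (g : SL(2, ℝ)) (m : Measure S1) [IsProbabilityMeasure m] (a b : ℕ) :
    mo a b ((sym m).map (circ g)) = (1 + (-1) ^ (a + b)) / 2 * mo a b (m.map (circ g)) := by
  rw [mo_map, mo_map]
  have h1 := integral_sym m (f := fun x => mon a b (circ g x))
    ((continuous_mon a b).comp (continuous_circ g))
  rw [h1]
  simp_rw [circ_ant, mon_ant]
  rw [integral_const_mul]
  ring

/-- if all the images have the same even moments there is an invariant measure -/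
lemma not_noInv {w : ι → ℝ} (A : ι → SL(2, ℝ)) (hw : IsWt w) (m : Measure S1)
    [IsProbabilityMeasure m] (hst : stp w A m = m)
    (h : ∀ j a, a ≤ 2 * (j + 1) → ∀ i k, mo a (2 * (j + 1) - a) (m.map (circ (A i))) =
      mo a (2 * (j + 1) - a) (m.map (circ (A k)))) : ¬ NoInv A := by
  intro hN
  have hp := sym_prob m
  refine hN (sym m) hp ?_
  have h1 : ∀ a b i k, mo a b ((sym m).map (circ (A i))) = mo a b ((sym m).map (circ (A k))) := by
    intro a b i k
    rw [mo_sym_map, mo_sym_map]
    rcases Nat.even_or_odd (a + b) with he | ho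
    · obtain ⟨c, hc⟩ := he
      rcases Nat.eq_zero_or_pos c with rfl | hpos
      · have ha : a = 0 := by omega
        have hb : b = 0 := by omega
        subst ha; subst hb
        have h2 : ∀ g : SL(2, ℝ), mo 0 0 (m.map (circ g)) = 1 := by
          intro g
          rw [mo_map]
          simp [mon]
        rw [h2, h2]
      · obtain ⟨j, rfl⟩ : ∃ j, c = j + 1 := ⟨c - 1, by omega⟩
        have hb : b = 2 * (j + 1) - a := by omega
        rw [hb, h j a (by omega) i k]
    · rw [ho.neg_one_pow]
      simp
  intro i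
  have hpi := map_prob (A i) (sym m)
  apply eq_of_mo
  intro a b
  have h2 : mo a b (sym m) = ∑ k, w k * mo a b ((sym m).map (circ (A k))) := by
    have h3 : mo a b (sym m) = (1 + (-1) ^ (a + b)) / 2 * mo a b m := by
      have := mo_sym_map 1 m a b
      have e : circ 1 = id := by
        ext x
        simp
      rwa [e, Measure.map_id, Measure.map_id] at this
    have h4 : mo a b m = ∑ k, w k * mo a b (m.map (circ (A k))) := by
      conv_lhs => rw [← hst]
      exact integral_stp A hw m (continuous_mon a b)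
    rw [h3, h4, Finset.mul_sum]
    refine Finset.sum_congr rfl fun k _ => ?_
    rw [mo_sym_map]
    ring
  rw [h2]
  have h5 : ∀ k, w k * mo a b ((sym m).map (circ (A k))) =
      w k * mo a b ((sym m).map (circ (A i))) := fun k => by rw [h1 a b k i]
  simp_rw [h5]
  rw [← Finset.sum_mul, hw.sum, one_mul]

/-- bounded continuous version of a continuous function on the circle -/
def bcf (f : S1 → ℝ) (hf : Continuous f) : S1 →ᵇ ℝ := BoundedContinuousFunction.mkOfCompact ⟨f, hf⟩

end FA

open FA in
theorem exists_stat_pos (w : ι → ℝ) (A : ι → SL(2, ℝ)) (hw : IsWt w) (hA : NoInv A) :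
    ∃ η : Measure S1, Stat w A η ∧ 0 < ∫ z, ∑ i, w i * Real.log ‖lin (A i) (z : ℂ)‖ ∂η := by
  -- the Cesàro averages
  let c : ℕ → ProbabilityMeasure S1 := fun n => ⟨ces w A th0 n, ces_prob A hw th0 n⟩
  let U : Ultrafilter ℕ := Filter.hyperfilter ℕ
  have hU : (U : Filter ℕ) ≤ atTop := by
    rw [← Nat.cofinite_eq_atTop]
    exact Filter.hyperfilter_le_cofinite
  obtain ⟨m, -, hm⟩ := isCompact_univ.ultrafilter_le_nhds (U.map c) (by simp)
  have hlim : Tendsto c U (𝓝 m) := hm
  have hint : ∀ f : S1 → ℝ, Continuous f →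
      Tendsto (fun n => ∫ x, f x ∂(ces w A th0 n)) U (𝓝 (∫ x, f x ∂(m : Measure S1))) := by
    intro f hf
    exact ProbabilityMeasure.tendsto_iff_forall_integral_tendsto.1 hlim (bcf f hf)
  have hinv : Tendsto (fun n : ℕ => 1 / ((n : ℝ) + 1)) U (𝓝 0) :=
    tendsto_one_div_add_atTop_nhds_zero_nat.mono_left hU
  -- stationarity
  have hst : stp w A (m : Measure S1) = m := by
    have hp := stp_prob A hw (m : Measure S1)
    apply ext_of_forall_integral_eq_of_IsFiniteMeasure
    intro f
    have hf : Continuous f := f.continuous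
    have h1 : Tendsto (fun n => ∫ x, f x ∂(stp w A (ces w A th0 n))) U
        (𝓝 (∫ x, f x ∂(stp w A (m : Measure S1)))) := by
      have h2 : ∀ θ : Measure S1, IsProbabilityMeasure θ → ∫ x, f x ∂(stp w A θ) =
          ∫ x, (∑ i, w i * f (circ (A i) x)) ∂θ := by
        intro θ hθ
        rw [integral_stp A hw θ hf, integral_finsetSum]
        · refine Finset.sum_congr rfl fun i _ => ?_
          rw [integral_const_mul, integral_map (measurable_circ (A i)).aemeasurable
            hf.measurable.aestronglyMeasurable]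
        · intro i _
          exact (integrable_of_cont θ (hf.comp (continuous_circ (A i)))).const_mul _
      have hg : Continuous fun x => ∑ i, w i * f (circ (A i) x) :=
        continuous_finsetSum _ fun i _ => continuous_const.mul (hf.comp (continuous_circ (A i)))
      have h3 := hint _ hg
      rw [h2 _ inferInstance]
      refine h3.congr fun n => ?_
      rw [h2 _ (ces_prob A hw th0 n)]
    have h4 : ∀ n : ℕ, ∫ x, f x ∂(stp w A (ces w A th0 n)) - ∫ x, f x ∂(ces w A th0 n) =
        1 / ((n : ℝ) + 1) * (∫ x, f x ∂(ch w A th0 (n + 1)) - ∫ x, f x ∂(ch w A th0 0)) := by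
      intro n
      have hpn := ces_prob A hw th0 n
      have h5 : ∫ x, f x ∂(stp w A (ces w A th0 n)) = 1 / ((n : ℝ) + 1) *
          ∑ k ∈ Finset.range (n + 1), ∫ x, f x ∂(ch w A th0 (k + 1)) := by
        rw [integral_stp A hw _ hf]
        have h6 : ∀ i, ∫ x, f x ∂((ces w A th0 n).map (circ (A i))) = 1 / ((n : ℝ) + 1) *
            ∑ k ∈ Finset.range (n + 1), ∫ x, f x ∂((ch w A th0 k).map (circ (A i))) := by
          intro i
          rw [integral_map (measurable_circ (A i)).aemeasurable
            hf.measurable.aestronglyMeasurable]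
          have h6' := integral_ces A hw th0 n (f := fun x => f (circ (A i) x))
            (hf.comp (continuous_circ (A i)))
          rw [h6']
          congr 1
          refine Finset.sum_congr rfl fun k _ => ?_
          rw [integral_map (measurable_circ (A i)).aemeasurable
            hf.measurable.aestronglyMeasurable]
        simp_rw [h6]
        have h7 : ∀ k, ∫ x, f x ∂(ch w A th0 (k + 1)) =
            ∑ i, w i * ∫ x, f x ∂((ch w A th0 k).map (circ (A i))) := by
          intro k
          have := ch_prob A hw th0 k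
          exact integral_stp A hw _ hf
        simp_rw [h7]
        rw [Finset.sum_comm, Finset.mul_sum]
        refine Finset.sum_congr rfl fun i _ => ?_
        rw [← Finset.mul_sum]
        ring
      rw [h5, integral_ces A hw th0 n hf, ← mul_sub, ← Finset.sum_sub_distrib,
        Finset.sum_range_sub (fun k => ∫ x, f x ∂(ch w A th0 k))]
    have h8 : Tendsto (fun n : ℕ => ∫ x, f x ∂(stp w A (ces w A th0 n)) -
        ∫ x, f x ∂(ces w A th0 n)) U (𝓝 0) := by
      obtain ⟨C, hC⟩ := isCompact_univ.exists_bound_of_continuousOn hf.continuousOn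
      have h9 : ∀ θ : Measure S1, IsProbabilityMeasure θ → |∫ x, f x ∂θ| ≤ C := by
        intro θ hθ
        have := norm_integral_le_of_norm_le_const (μ := θ)
          (Eventually.of_forall fun x => hC x trivial)
        simpa using this
      refine squeeze_zero_norm (a := fun n : ℕ => 1 / ((n : ℝ) + 1) * (2 * C)) (fun n => ?_) ?_
      · rw [h4 n, norm_mul, Real.norm_of_nonneg (by positivity : (0 : ℝ) ≤ 1 / ((n : ℝ) + 1))]
        refine mul_le_mul_of_nonneg_left ?_ (by positivity)
        have a1 := h9 _ (ch_prob A hw th0 (n + 1))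
        have a2 := h9 _ (ch_prob A hw th0 0)
        rw [Real.norm_eq_abs]
        refine (abs_sub _ _).trans ?_
        linarith
      · simpa using hinv.mul_const (2 * C)
    have h10 := h1.sub (hint f hf)
    have h11 := tendsto_nhds_unique h10 h8
    linarith
  -- the variance is bounded by the drift
  have hkey : ∀ J, ∑ j ∈ Finset.range J, Vj w A j (m : Measure S1) ≤
      2 * Dr w A (m : Measure S1) := by
    intro J
    have hV : ∀ j, Tendsto (fun n => Vj w A j (ces w A th0 n)) U (𝓝 (Vj w A j (m : Measure S1))) := by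
      intro j
      rw [Vj_eq]
      have e : ∀ n, Vj w A j (ces w A th0 n) = ∑ a ∈ Finset.range (2 * (j + 1) + 1), cf j a *
          ((1 / 2) * ∑ i, ∑ k, w i * w k *
          (∫ x, dfn A a (2 * (j + 1) - a) i k x ∂(ces w A th0 n)) ^ 2) := by
        intro n
        have := ces_prob A hw th0 n
        exact Vj_eq w A j _
      simp_rw [e]
      refine tendsto_finsetSum _ fun a _ => ?_
      refine Tendsto.const_mul _ (Tendsto.const_mul _ ?_)
      refine tendsto_finsetSum _ fun i _ => tendsto_finsetSum _ fun k _ => ?_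
      exact Tendsto.const_mul _ ((hint _ (continuous_dfn A _ _ i k)).pow 2)
    have hl : Tendsto (fun n => ∑ j ∈ Finset.range J, Vj w A j (ces w A th0 n)) U
        (𝓝 (∑ j ∈ Finset.range J, Vj w A j (m : Measure S1))) :=
      tendsto_finsetSum _ fun j _ => hV j
    have hr : Tendsto (fun n : ℕ => 1 / ((n : ℝ) + 1) * (en th0).toReal +
        2 * Dr w A (ces w A th0 n)) U (𝓝 (0 * (en th0).toReal + 2 * Dr w A (m : Measure S1))) :=
      (hinv.mul_const _).add ((hint _ (cont_drift w A)).const_mul 2)
    have := le_of_tendsto_of_tendsto hl hr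
      (Eventually.of_forall fun n => key_ces A hw th0 en_th0 J n)
    simpa using this
  refine ⟨m, ⟨inferInstance, hst⟩, ?_⟩
  by_contra hneg
  have hneg' : Dr w A (m : Measure S1) ≤ 0 := not_lt.1 hneg
  refine not_noInv A hw (m : Measure S1) hst ?_ hA
  intro j a ha i k
  have hVj : Vj w A j (m : Measure S1) = 0 := by
    have h1 := hkey (j + 1)
    have h2 : Vj w A j (m : Measure S1) ≤ ∑ j' ∈ Finset.range (j + 1), Vj w A j' (m : Measure S1) :=
      Finset.single_le_sum (f := fun j' => Vj w A j' (m : Measure S1))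
        (fun j' _ => Vj_nonneg A hw j' _) (Finset.self_mem_range_succ j)
    have h3 := Vj_nonneg A hw j (m : Measure S1)
    linarith
  unfold Vj at hVj
  have hterm : ∀ a ∈ Finset.range (2 * (j + 1) + 1), 0 ≤ cf j a * ((1 / 2) * ∑ i, ∑ k, w i * w k *
      (mo a (2 * (j + 1) - a) ((m : Measure S1).map (circ (A i))) -
        mo a (2 * (j + 1) - a) ((m : Measure S1).map (circ (A k)))) ^ 2) := by
    intro a ha
    have := cf_pos (j := j) (a := a) (by simpa [Nat.lt_succ_iff] using ha)
    refine mul_nonneg this.le (mul_nonneg (by norm_num) ?_)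
    refine Finset.sum_nonneg fun i _ => Finset.sum_nonneg fun k _ => ?_
    have h1 := hw.pos i
    have h2 := hw.pos k
    positivity
  have h1 := (Finset.sum_eq_zero_iff_of_nonneg hterm).1 hVj a
    (by simpa [Nat.lt_succ_iff] using ha)
  have h2 := cf_pos (j := j) (a := a) ha
  have h3 : ∑ i, ∑ k, w i * w k *
      (mo a (2 * (j + 1) - a) ((m : Measure S1).map (circ (A i))) -
        mo a (2 * (j + 1) - a) ((m : Measure S1).map (circ (A k)))) ^ 2 = 0 := by
    rcases mul_eq_zero.1 h1 with h | h
    · exact absurd h h2.ne'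
    · linarith
  have h4 := (Finset.sum_eq_zero_iff_of_nonneg fun i _ => Finset.sum_nonneg fun k _ => by
    have h1 := hw.pos i
    have h2 := hw.pos k
    positivity).1 h3 i (Finset.mem_univ i)
  have h5 := (Finset.sum_eq_zero_iff_of_nonneg fun k _ => by
    have h1 := hw.pos i
    have h2 := hw.pos k
    positivity).1 h4 k (Finset.mem_univ k)
  have h6 := hw.pos i
  have h7 := hw.pos k
  have h8 : (mo a (2 * (j + 1) - a) ((m : Measure S1).map (circ (A i))) -
        mo a (2 * (j + 1) - a) ((m : Measure S1).map (circ (A k)))) ^ 2 = 0 := by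
    rcases mul_eq_zero.1 h5 with h | h
    · exact absurd h (by positivity)
    · exact h
  have h9 := pow_eq_zero_iff (two_ne_zero) |>.1 h8
  linarith

end

end Pool.Agent.Helper97.Fuchs
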