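import Pool.Agent.Helper97.Fuchs.Defs3

/-!
# FU-A, part 1: the logarithmic kernel
-/

namespace Pool.Agent.Helper97.Fuchs

open MeasureTheory Matrix Filter Topology
open scoped MatrixGroups ENNReal BigOperators

noncomputable section

namespace FA

/-- scalar product -/
def dot (z w : ℂ) : ℝ := z.re * w.re + z.im * w.im

/-- monomials -/
def mon (a b : ℕ) (z : S1) : ℝ := (z : ℂ).re ^ a * (z : ℂ).im ^ b

lemma continuous_mon (a b : ℕ) : Continuous (mon a b) := by
  unfold mon
  fun_prop

lemma continuous_dot : Continuous fun p : S1 × S1 => dot p.1 p.2 := by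
  unfold dot
  fun_prop

/-- coefficients -/
def cf (j a : ℕ) : ℝ := (Nat.choose (2 * (j + 1)) a : ℝ) / (2 * ((j : ℝ) + 1))

lemma cf_pos {j a : ℕ} (h : a ≤ 2 * (j + 1)) : 0 < cf j a := by
  unfold cf
  have : 0 < Nat.choose (2 * (j + 1)) a := Nat.choose_pos h
  positivity

lemma term_eq (j : ℕ) (x y : S1) : dot x y ^ (2 * (j + 1)) / (2 * ((j : ℝ) + 1)) =
    ∑ a ∈ Finset.range (2 * (j + 1) + 1),
      cf j a * (mon a (2 * (j + 1) - a) x * mon a (2 * (j + 1) - a) y) := by
  unfold dot
  rw [add_pow, Finset.sum_div]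
  refine Finset.sum_congr rfl fun a _ => ?_
  unfold cf mon
  rw [mul_pow, mul_pow]
  ring

/-- moments -/
def mo (a b : ℕ) (θ : Measure S1) : ℝ := ∫ x, mon a b x ∂θ

/-- the `j`-th term of the energy -/
def bj (j : ℕ) (θ : Measure S1) : ℝ :=
  ∑ a ∈ Finset.range (2 * (j + 1) + 1), cf j a * mo a (2 * (j + 1) - a) θ ^ 2

lemma bj_nonneg (j : ℕ) (θ : Measure S1) : 0 ≤ bj j θ := by
  refine Finset.sum_nonneg fun a ha => ?_
  have := cf_pos (j := j) (a := a) (by simpa [Nat.lt_succ_iff] using ha)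
  positivity

/-- the kernel -/
def kap (x y : S1) : ℝ≥0∞ :=
  ∑' j : ℕ, ENNReal.ofReal (dot x y ^ (2 * (j + 1)) / (2 * ((j : ℝ) + 1)))

/-- the energy -/
def en (θ : Measure S1) : ℝ≥0∞ := ∑' j : ℕ, ENNReal.ofReal (bj j θ)

lemma integrable_of_cont (θ : Measure S1) [IsFiniteMeasure θ] {f : S1 → ℝ} (hf : Continuous f) :
    Integrable f θ := by
  obtain ⟨C, hC⟩ := isCompact_univ.exists_bound_of_continuousOn hf.continuousOn
  exact Integrable.of_bound hf.aestronglyMeasurable C (Eventually.of_forall fun x => hC x trivial)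

lemma measurable_kap : Measurable fun p : S1 × S1 => kap p.1 p.2 := by
  unfold kap
  refine Measurable.tsum fun j => ?_
  exact ((continuous_dot.pow _).div_const _).measurable.ennreal_ofReal

lemma dot_pow_nonneg (x y : ℂ) (j : ℕ) : 0 ≤ dot x y ^ (2 * (j + 1)) / (2 * ((j : ℝ) + 1)) := by
  rw [pow_mul]
  positivity

lemma cont_dot_right (x : S1) : Continuous fun y : S1 => dot x y :=
  continuous_dot.comp (continuous_const.prodMk continuous_id)

lemma lint_term (θ : Measure S1) [IsFiniteMeasure θ] (j : ℕ) :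
    ∫⁻ x : S1, ∫⁻ y : S1, ENNReal.ofReal (dot x y ^ (2 * (j + 1)) / (2 * ((j : ℝ) + 1))) ∂θ ∂θ =
      ENNReal.ofReal (bj j θ) := by
  have h1 : ∀ x : S1, ∫⁻ y : S1, ENNReal.ofReal
      (dot x y ^ (2 * (j + 1)) / (2 * ((j : ℝ) + 1))) ∂θ =
      ENNReal.ofReal (∑ a ∈ Finset.range (2 * (j + 1) + 1),
        cf j a * (mon a (2 * (j + 1) - a) x * mo a (2 * (j + 1) - a) θ)) := by
    intro x
    rw [← ofReal_integral_eq_lintegral_ofReal]
    · congr 1
      simp_rw [term_eq]
      rw [integral_finsetSum]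
      · refine Finset.sum_congr rfl fun a _ => ?_
        rw [integral_const_mul, integral_const_mul, mo]
      · intro a _
        exact ((integrable_of_cont θ (continuous_mon _ _)).const_mul _).const_mul _
    · exact integrable_of_cont θ (((cont_dot_right x).pow _).div_const _)
    · exact Eventually.of_forall fun y => dot_pow_nonneg _ _ _
  simp_rw [h1]
  rw [← ofReal_integral_eq_lintegral_ofReal]
  · congr 1
    rw [integral_finsetSum]
    · refine Finset.sum_congr rfl fun a _ => ?_
      rw [integral_const_mul, integral_mul_const, mo]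
      ring
    · intro a _
      exact ((integrable_of_cont θ (continuous_mon _ _)).mul_const _).const_mul _
  · refine integrable_finsetSum _ fun a _ => ?_
    exact ((integrable_of_cont θ (continuous_mon _ _)).mul_const _).const_mul _
  · refine Eventually.of_forall fun x => ?_
    have h2 : ∑ a ∈ Finset.range (2 * (j + 1) + 1),
        cf j a * (mon a (2 * (j + 1) - a) x * mo a (2 * (j + 1) - a) θ) =
        ∫ y : S1, dot x y ^ (2 * (j + 1)) / (2 * ((j : ℝ) + 1)) ∂θ := by
      simp_rw [term_eq]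
      rw [integral_finsetSum]
      · refine Finset.sum_congr rfl fun a _ => ?_
        rw [integral_const_mul, integral_const_mul, mo]
      · intro a _
        exact ((integrable_of_cont θ (continuous_mon _ _)).const_mul _).const_mul _
    simp only [Pi.zero_apply]
    rw [h2]
    exact integral_nonneg fun y => dot_pow_nonneg _ _ _

lemma en_eq (θ : Measure S1) [IsFiniteMeasure θ] :
    en θ = ∫⁻ x : S1, ∫⁻ y : S1, kap x y ∂θ ∂θ := by
  have h1 : ∀ x : S1, ∫⁻ y : S1, kap x y ∂θ = ∑' j : ℕ, ∫⁻ y : S1, ENNReal.ofReal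
      (dot x y ^ (2 * (j + 1)) / (2 * ((j : ℝ) + 1))) ∂θ := by
    intro x
    unfold kap
    rw [lintegral_tsum]
    intro j
    exact (((cont_dot_right x).pow _).div_const _).measurable.ennreal_ofReal.aemeasurable
  simp_rw [h1]
  rw [lintegral_tsum]
  · unfold en
    congr 1
    ext j
    rw [lint_term]
  · intro j
    have hm : Measurable fun p : S1 × S1 =>
        ENNReal.ofReal (dot p.1 p.2 ^ (2 * (j + 1)) / (2 * ((j : ℝ) + 1))) :=
      ((continuous_dot.pow _).div_const _).measurable.ennreal_ofReal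
    exact (hm.lintegral_prod_right' (ν := θ)).aemeasurable

lemma dot_sq_add (x y : S1) : wedge x y ^ 2 + dot x y ^ 2 = 1 := by
  have := wedge_sq_add (x : ℂ) (y : ℂ)
  rw [S1_norm, S1_norm] at this
  unfold dot
  linarith

lemma kap_of_ne {x y : S1} (h : wedge x y ≠ 0) :
    kap x y = ENNReal.ofReal (-Real.log |wedge x y|) := by
  have h1 := dot_sq_add x y
  have h2 : 0 < wedge x y ^ 2 := by positivity
  have h3 : |dot x y ^ 2| < 1 := by
    rw [abs_of_nonneg (sq_nonneg _)]
    linarith
  have hs := (Real.hasSum_pow_div_log_of_abs_lt_one h3).div_const 2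
  have hs' : HasSum (fun j : ℕ => dot x y ^ (2 * (j + 1)) / (2 * ((j : ℝ) + 1)))
      (-Real.log |wedge x y|) := by
    have e1 : (fun j : ℕ => dot x y ^ (2 * (j + 1)) / (2 * ((j : ℝ) + 1))) =
        fun i : ℕ => (dot x y ^ 2) ^ (i + 1) / ((i : ℝ) + 1) / 2 := by
      ext j
      rw [pow_mul]
      field_simp
    have e2 : -Real.log |wedge x y| = -Real.log (1 - dot x y ^ 2) / 2 := by
      rw [show 1 - dot x y ^ 2 = wedge x y ^ 2 by linarith, ← sq_abs, Real.log_pow]
      push_cast
      ring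
    rw [e1, e2]
    exact hs
  unfold kap
  rw [← ENNReal.ofReal_tsum_of_nonneg (fun j => dot_pow_nonneg _ _ _) hs'.summable, hs'.tsum_eq]

lemma kap_of_eq {x y : S1} (h : wedge x y = 0) : kap x y = ⊤ := by
  have h1 := dot_sq_add x y
  rw [h] at h1
  have h2 : dot x y ^ 2 = 1 := by linarith
  by_contra hne
  unfold kap at hne
  have hs := ENNReal.summable_toReal hne
  have hs' : Summable fun j : ℕ => (1 : ℝ) / ((j : ℝ) + 1) := by
    have e1 : (fun j : ℕ => (1 : ℝ) / ((j : ℝ) + 1)) = fun j : ℕ =>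
        2 * (ENNReal.ofReal (dot x y ^ (2 * (j + 1)) / (2 * ((j : ℝ) + 1)))).toReal := by
      ext j
      rw [ENNReal.toReal_ofReal (dot_pow_nonneg _ _ _), pow_mul, h2, one_pow]
      field_simp
    rw [e1]
    exact hs.mul_left 2
  have := (summable_nat_add_iff (f := fun j : ℕ => (1 : ℝ) / (j : ℝ)) 1).1 (by simpa using hs')
  exact Real.not_summable_one_div_natCast this

lemma lin_norm_pos (g : SL(2, ℝ)) (x : S1) : 0 < ‖lin g (x : ℂ)‖ := by
  simpa using lin_ne_zero (S1_ne_zero x)

lemma log_lin_ge (g : SL(2, ℝ)) (x : S1) : -Real.log (nrm g) ≤ Real.log ‖lin g (x : ℂ)‖ := by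
  have h1 := norm_le_lin g (x : ℂ)
  rw [S1_norm] at h1
  have h2 := lin_norm_pos g x
  have h3 := nrm_pos g
  have h4 : Real.log 1 ≤ Real.log (nrm g * ‖lin g (x : ℂ)‖) := Real.log_le_log one_pos h1
  rw [Real.log_one, Real.log_mul h3.ne' h2.ne'] at h4
  linarith

lemma wedge_circ (g : SL(2, ℝ)) (x y : S1) :
    wedge (circ g x) (circ g y) = wedge x y / (‖lin g (x : ℂ)‖ * ‖lin g (y : ℂ)‖) := by
  have h1 := wedge_lin g (x : ℂ) (y : ℂ)
  have hx := (lin_norm_pos g x).ne'
  have hy := (lin_norm_pos g y).ne'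
  have h2 : wedge (lin g x) (lin g y) =
      ‖lin g (x : ℂ)‖ * ‖lin g (y : ℂ)‖ * wedge (circ g x) (circ g y) := by
    conv_lhs => rw [circ_smul_eq g x, circ_smul_eq g y]
    unfold wedge
    simp only [Complex.mul_re, Complex.mul_im, Complex.ofReal_re, Complex.ofReal_im]
    ring
  rw [← h1, h2]
  field_simp

lemma abs_wedge_le_one (x y : S1) : |wedge x y| ≤ 1 := by
  have := abs_wedge_le (x : ℂ) (y : ℂ)
  simpa using this

lemma kap_circ (g : SL(2, ℝ)) (x y : S1) :
    kap (circ g x) (circ g y) + ENNReal.ofReal (2 * Real.log (nrm g)) ≤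
      kap x y + ENNReal.ofReal (Real.log ‖lin g (x : ℂ)‖ + Real.log ‖lin g (y : ℂ)‖
        + 2 * Real.log (nrm g)) := by
  by_cases h : wedge x y = 0
  · rw [kap_of_eq h, top_add]
    exact le_top
  · have hx := lin_norm_pos g x
    have hy := lin_norm_pos g y
    have h1 : wedge (circ g x) (circ g y) ≠ 0 := by
      rw [wedge_circ]
      positivity
    have hlog : -Real.log |wedge (circ g x) (circ g y)| = -Real.log |wedge x y| +
        (Real.log ‖lin g (x : ℂ)‖ + Real.log ‖lin g (y : ℂ)‖) := by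
      rw [wedge_circ, abs_div, Real.log_div (by simpa using h) (by positivity),
        abs_of_pos (mul_pos hx hy), Real.log_mul hx.ne' hy.ne']
      ring
    have hn : 0 ≤ Real.log (nrm g) := Real.log_nonneg (one_le_nrm g)
    have hk : ∀ x y : S1, wedge x y ≠ 0 → 0 ≤ -Real.log |wedge x y| := by
      intro x y hxy
      have := Real.log_nonpos (abs_nonneg _) (abs_wedge_le_one x y)
      linarith
    have h3 := log_lin_ge g x
    have h4 := log_lin_ge g y
    rw [kap_of_ne h, kap_of_ne h1, ← ENNReal.ofReal_add (hk _ _ h1) (by positivity),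
      ← ENNReal.ofReal_add (hk _ _ h) (by linarith), hlog]
    apply le_of_eq
    congr 1
    ring

lemma cont_log_lin (g : SL(2, ℝ)) : Continuous fun x : S1 => Real.log ‖lin g (x : ℂ)‖ := by
  refine Continuous.log ?_ fun x => (lin_norm_pos g x).ne'
  exact ((continuous_lin_right g).comp continuous_subtype_val).norm

attribute [local irreducible] kap en

lemma lint_aux (θ : Measure S1) [IsProbabilityMeasure θ] (f : S1 → ℝ) (hf : Continuous f)
    (c : ℝ) (hc : ∀ x, -c ≤ f x) (k : S1 → S1 → ℝ≥0∞) :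
    ∫⁻ x : S1, ∫⁻ y : S1, (k x y + ENNReal.ofReal (f x + f y + 2 * c)) ∂θ ∂θ =
      ∫⁻ x : S1, ∫⁻ y : S1, k x y ∂θ ∂θ + ENNReal.ofReal (2 * ∫ x, f x ∂θ + 2 * c) := by
  have hfi := integrable_of_cont θ hf
  have h1 : ∀ x : S1, ∫⁻ y : S1, (k x y + ENNReal.ofReal (f x + f y + 2 * c)) ∂θ =
      ∫⁻ y : S1, k x y ∂θ + ENNReal.ofReal (f x + ∫ y, f y ∂θ + 2 * c) := by
    intro x
    have hc' : Continuous fun y : S1 => f x + f y + 2 * c :=
      (continuous_const.add hf).add continuous_const
    rw [lintegral_add_right _ hc'.measurable.ennreal_ofReal,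
      ← ofReal_integral_eq_lintegral_ofReal (integrable_of_cont θ hc')]
    · congr 2
      have a1 : ∫ y : S1, (f x + f y + 2 * c) ∂θ = ∫ y : S1, (f x + f y) ∂θ + ∫ _y : S1, 2 * c ∂θ :=
        integral_add ((integrable_const _).add hfi) (integrable_const _)
      have a2 : ∫ y : S1, (f x + f y) ∂θ = ∫ _y : S1, f x ∂θ + ∫ y : S1, f y ∂θ :=
        integral_add (integrable_const _) hfi
      rw [a1, a2]
      simp
    · refine Eventually.of_forall fun y => ?_
      have h3 := hc x
      have h4 := hc y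
      simp only [Pi.zero_apply]
      linarith
  simp_rw [h1]
  have hc' : Continuous fun x : S1 => f x + ∫ y, f y ∂θ + 2 * c :=
    (hf.add continuous_const).add continuous_const
  rw [lintegral_add_right _ hc'.measurable.ennreal_ofReal,
    ← ofReal_integral_eq_lintegral_ofReal (integrable_of_cont θ hc')]
  · congr 2
    have a1 : ∫ x : S1, (f x + ∫ y, f y ∂θ + 2 * c) ∂θ =
        ∫ x : S1, (f x + ∫ y, f y ∂θ) ∂θ + ∫ _y : S1, 2 * c ∂θ :=
      integral_add (hfi.add (integrable_const _)) (integrable_const _)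
    have a2 : ∫ x : S1, (f x + ∫ y, f y ∂θ) ∂θ = ∫ x : S1, f x ∂θ + ∫ _x : S1, ∫ y, f y ∂θ ∂θ :=
      integral_add hfi (integrable_const _)
    rw [a1, a2]
    simp
    ring
  · refine Eventually.of_forall fun x => ?_
    have h3 := hc x
    have h4 : -c ≤ ∫ y, f y ∂θ := by
      have : ∫ _y : S1, -c ∂θ ≤ ∫ y : S1, f y ∂θ :=
        integral_mono (integrable_const _) hfi fun y => hc y
      simpa using this
    simp only [Pi.zero_apply]
    linarith

lemma en_map (g : SL(2, ℝ)) (θ : Measure S1) [IsProbabilityMeasure θ] :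
    en (θ.map (circ g)) + ENNReal.ofReal (2 * Real.log (nrm g)) ≤
      en θ + ENNReal.ofReal (2 * ∫ x : S1, Real.log ‖lin g (x : ℂ)‖ ∂θ + 2 * Real.log (nrm g)) := by
  have hp : IsProbabilityMeasure (θ.map (circ g)) :=
    Measure.isProbabilityMeasure_map (measurable_circ g).aemeasurable
  have hmk : Measurable fun x : S1 => ∫⁻ y : S1, kap x y ∂(θ.map (circ g)) :=
    measurable_kap.lintegral_prod_right' (ν := θ.map (circ g))
  have e1 : en (θ.map (circ g)) = ∫⁻ x : S1, ∫⁻ y : S1, kap (circ g x) (circ g y) ∂θ ∂θ := by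
    have b1 := lintegral_map (μ := θ) hmk (measurable_circ g)
    have b2 : ∀ x : S1, ∫⁻ y : S1, kap (circ g x) y ∂(θ.map (circ g)) =
        ∫⁻ y : S1, kap (circ g x) (circ g y) ∂θ := by
      intro x
      have hm : Measurable fun y : S1 => kap (circ g x) y :=
        measurable_kap.comp (measurable_const.prodMk measurable_id)
      exact lintegral_map (μ := θ) hm (measurable_circ g)
    calc en (θ.map (circ g)) =
        ∫⁻ x : S1, ∫⁻ y : S1, kap x y ∂(θ.map (circ g)) ∂(θ.map (circ g)) := en_eq _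
      _ = ∫⁻ x : S1, ∫⁻ y : S1, kap (circ g x) y ∂(θ.map (circ g)) ∂θ := b1
      _ = _ := lintegral_congr b2
  have hm2 : Measurable fun p : S1 × S1 => kap (circ g p.1) (circ g p.2) :=
    measurable_kap.comp (((measurable_circ g).comp measurable_fst).prodMk
      ((measurable_circ g).comp measurable_snd))
  have e2 := lint_aux θ (fun _ => 0) continuous_const (Real.log (nrm g))
    (fun _ => by have := Real.log_nonneg (one_le_nrm g); linarith)
    (fun x y => kap (circ g x) (circ g y))
  have e3 := lint_aux θ _ (cont_log_lin g) (Real.log (nrm g)) (log_lin_ge g) kap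
  simp only [add_zero, zero_add, integral_const, smul_zero, mul_zero] at e2
  rw [e1, ← e2, en_eq, ← e3]
  exact lintegral_mono fun x => lintegral_mono fun y => kap_circ g x y

end FA

end

end Pool.Agent.Helper97.Fuchs
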