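import Pool.Agent.Helper76.Fuchs.Energy1

/-!
# FU-A, part 2: energy along the Markov chain
-/

namespace Pool.Agent.Helper97.Fuchs

open MeasureTheory Matrix Filter Topology
open scoped MatrixGroups ENNReal BigOperators

noncomputable section

variable {ι : Type} [Fintype ι]

namespace FA

/-- one step of the chain -/
def stp (w : ι → ℝ) (A : ι → SL(2, ℝ)) (θ : Measure S1) : Measure S1 :=
  ∑ i, ENNReal.ofReal (w i) • θ.map (circ (A i))

lemma map_prob (g : SL(2, ℝ)) (θ : Measure S1) [IsProbabilityMeasure θ] :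
    IsProbabilityMeasure (θ.map (circ g)) :=
  Measure.isProbabilityMeasure_map (measurable_circ g).aemeasurable

lemma stp_prob {w : ι → ℝ} (A : ι → SL(2, ℝ)) (hw : IsWt w) (θ : Measure S1)
    [IsProbabilityMeasure θ] : IsProbabilityMeasure (stp w A θ) := by
  constructor
  unfold stp
  rw [Measure.finsetSum_apply]
  have h : ∀ i, (ENNReal.ofReal (w i) • θ.map (circ (A i))) Set.univ = ENNReal.ofReal (w i) := by
    intro i
    have := map_prob (A i) θ
    rw [Measure.smul_apply, measure_univ, smul_eq_mul, mul_one]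
  simp_rw [h]
  rw [← ENNReal.ofReal_sum_of_nonneg fun i _ => (hw.pos i).le, hw.sum, ENNReal.ofReal_one]

lemma integral_stp {w : ι → ℝ} (A : ι → SL(2, ℝ)) (hw : IsWt w) (θ : Measure S1)
    [IsProbabilityMeasure θ] {f : S1 → ℝ} (hf : Continuous f) :
    ∫ x, f x ∂(stp w A θ) = ∑ i, w i * ∫ x, f x ∂(θ.map (circ (A i))) := by
  unfold stp
  rw [integral_finsetSum_measure]
  · refine Finset.sum_congr rfl fun i _ => ?_
    rw [integral_smul_measure, ENNReal.toReal_ofReal (hw.pos i).le, smul_eq_mul]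
  · intro i _
    have := map_prob (A i) θ
    exact (integrable_of_cont _ hf).smul_measure ENNReal.ofReal_ne_top

/-- the variance term -/
def Vj (w : ι → ℝ) (A : ι → SL(2, ℝ)) (j : ℕ) (θ : Measure S1) : ℝ :=
  ∑ a ∈ Finset.range (2 * (j + 1) + 1), cf j a * ((1 / 2) * ∑ i, ∑ k, w i * w k *
    (mo a (2 * (j + 1) - a) (θ.map (circ (A i))) - mo a (2 * (j + 1) - a) (θ.map (circ (A k)))) ^ 2)

lemma Vj_nonneg {w : ι → ℝ} (A : ι → SL(2, ℝ)) (hw : IsWt w) (j : ℕ) (θ : Measure S1) :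
    0 ≤ Vj w A j θ := by
  refine Finset.sum_nonneg fun a ha => ?_
  have := cf_pos (j := j) (a := a) (by simpa [Nat.lt_succ_iff] using ha)
  refine mul_nonneg this.le (mul_nonneg (by norm_num) ?_)
  refine Finset.sum_nonneg fun i _ => Finset.sum_nonneg fun k _ => ?_
  have h1 := hw.pos i
  have h2 := hw.pos k
  positivity

lemma var_id {w : ι → ℝ} (hw : IsWt w) (m : ι → ℝ) :
    (∑ i, w i * m i) ^ 2 + (1 / 2) * ∑ i, ∑ k, w i * w k * (m i - m k) ^ 2 =
      ∑ i, w i * m i ^ 2 := by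
  have h1 : ∀ i k, w i * w k * (m i - m k) ^ 2 =
      (w i * m i ^ 2) * w k + w i * (w k * m k ^ 2) - 2 * ((w i * m i) * (w k * m k)) := by
    intro i k; ring
  simp_rw [h1, Finset.sum_sub_distrib, Finset.sum_add_distrib, ← Finset.mul_sum, ← Finset.sum_mul,
    hw.sum]
  ring

lemma bj_stp {w : ι → ℝ} (A : ι → SL(2, ℝ)) (hw : IsWt w) (j : ℕ) (θ : Measure S1)
    [IsProbabilityMeasure θ] :
    bj j (stp w A θ) + Vj w A j θ = ∑ i, w i * bj j (θ.map (circ (A i))) := by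
  unfold bj Vj
  rw [← Finset.sum_add_distrib]
  simp_rw [Finset.mul_sum]
  rw [Finset.sum_comm]
  refine Finset.sum_congr rfl fun a _ => ?_
  generalize 2 * (j + 1) - a = b
  have h1 : mo a b (stp w A θ) = ∑ i, w i * mo a b (θ.map (circ (A i))) :=
    integral_stp A hw θ (continuous_mon _ _)
  rw [h1]
  have h2 := var_id hw fun i => mo a b (θ.map (circ (A i)))
  have h3 := congrArg (fun t => cf j a * t) h2
  simp only [mul_add, Finset.mul_sum] at h3
  rw [h3]
  refine Finset.sum_congr rfl fun i _ => ?_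
  ring

lemma en_stp {w : ι → ℝ} (A : ι → SL(2, ℝ)) (hw : IsWt w) (θ : Measure S1)
    [IsProbabilityMeasure θ] (J : ℕ) :
    en (stp w A θ) + ENNReal.ofReal (∑ j ∈ Finset.range J, Vj w A j θ) ≤
      ∑ i, ENNReal.ofReal (w i) * en (θ.map (circ (A i))) := by
  have h1 : ∑ i, ENNReal.ofReal (w i) * en (θ.map (circ (A i))) =
      ∑' j, ENNReal.ofReal (∑ i, w i * bj j (θ.map (circ (A i)))) := by
    unfold en
    simp_rw [← ENNReal.tsum_mul_left]
    rw [← Summable.tsum_finsetSum fun _ _ => ENNReal.summable]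
    refine tsum_congr fun j => ?_
    rw [ENNReal.ofReal_sum_of_nonneg fun i _ => mul_nonneg (hw.pos i).le (bj_nonneg _ _)]
    refine Finset.sum_congr rfl fun i _ => ?_
    rw [ENNReal.ofReal_mul (hw.pos i).le]
  rw [h1]
  simp_rw [← bj_stp A hw]
  have h2 : ∀ j, ENNReal.ofReal (bj j (stp w A θ) + Vj w A j θ) =
      ENNReal.ofReal (bj j (stp w A θ)) + ENNReal.ofReal (Vj w A j θ) := fun j =>
    ENNReal.ofReal_add (bj_nonneg _ _) (Vj_nonneg A hw _ _)
  simp_rw [h2]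
  rw [ENNReal.tsum_add]
  unfold en
  gcongr
  rw [ENNReal.ofReal_sum_of_nonneg fun j _ => Vj_nonneg A hw _ _]
  exact ENNReal.sum_le_tsum _

/-- drift -/
def Dr (w : ι → ℝ) (A : ι → SL(2, ℝ)) (θ : Measure S1) : ℝ :=
  ∫ x : S1, ∑ i, w i * Real.log ‖lin (A i) (x : ℂ)‖ ∂θ

lemma Dr_eq (w : ι → ℝ) (A : ι → SL(2, ℝ)) (θ : Measure S1) [IsProbabilityMeasure θ] :
    Dr w A θ = ∑ i, w i * ∫ x : S1, Real.log ‖lin (A i) (x : ℂ)‖ ∂θ := by
  unfold Dr
  rw [integral_finsetSum]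
  · refine Finset.sum_congr rfl fun i _ => ?_
    rw [integral_const_mul]
  · intro i _
    exact (integrable_of_cont θ (cont_log_lin (A i))).const_mul _

lemma en_map_real (g : SL(2, ℝ)) (θ : Measure S1) [IsProbabilityMeasure θ] (h : en θ ≠ ⊤) :
    en (θ.map (circ g)) ≠ ⊤ ∧
    (en (θ.map (circ g))).toReal ≤ (en θ).toReal + 2 * ∫ x : S1, Real.log ‖lin g (x : ℂ)‖ ∂θ := by
  have h1 := en_map g θ
  have hb : en θ + ENNReal.ofReal (2 * ∫ x : S1, Real.log ‖lin g (x : ℂ)‖ ∂θ +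
      2 * Real.log (nrm g)) ≠ ⊤ := ENNReal.add_ne_top.2 ⟨h, ENNReal.ofReal_ne_top⟩
  have ha := ne_top_of_le_ne_top hb h1
  have ha' := (ENNReal.add_ne_top.1 ha).1
  refine ⟨ha', ?_⟩
  have h2 := ENNReal.toReal_mono hb h1
  have hn : 0 ≤ Real.log (nrm g) := Real.log_nonneg (one_le_nrm g)
  have h3 : -Real.log (nrm g) ≤ ∫ x : S1, Real.log ‖lin g (x : ℂ)‖ ∂θ := by
    have : ∫ _y : S1, -Real.log (nrm g) ∂θ ≤ ∫ y : S1, Real.log ‖lin g (y : ℂ)‖ ∂θ :=
      integral_mono (integrable_const _) (integrable_of_cont θ (cont_log_lin g))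
        fun y => log_lin_ge g y
    simpa using this
  rw [ENNReal.toReal_add ha' ENNReal.ofReal_ne_top, ENNReal.toReal_add h ENNReal.ofReal_ne_top,
    ENNReal.toReal_ofReal (by positivity), ENNReal.toReal_ofReal (by linarith)] at h2
  linarith

lemma en_step {w : ι → ℝ} (A : ι → SL(2, ℝ)) (hw : IsWt w) (θ : Measure S1)
    [IsProbabilityMeasure θ] (J : ℕ) (h : en θ ≠ ⊤) :
    en (stp w A θ) ≠ ⊤ ∧
    (en (stp w A θ)).toReal + ∑ j ∈ Finset.range J, Vj w A j θ ≤
      (en θ).toReal + 2 * Dr w A θ := by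
  have h1 := en_stp A hw θ J
  have hb : ∑ i, ENNReal.ofReal (w i) * en (θ.map (circ (A i))) ≠ ⊤ := by
    refine ENNReal.sum_ne_top.2 fun i _ => ?_
    exact ENNReal.mul_ne_top ENNReal.ofReal_ne_top (en_map_real (A i) θ h).1
  have ha := (ENNReal.add_ne_top.1 (ne_top_of_le_ne_top hb h1)).1
  refine ⟨ha, ?_⟩
  have h2 := ENNReal.toReal_mono hb h1
  rw [ENNReal.toReal_add ha ENNReal.ofReal_ne_top,
    ENNReal.toReal_ofReal (Finset.sum_nonneg fun j _ => Vj_nonneg A hw _ _),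
    ENNReal.toReal_sum fun i _ => ENNReal.mul_ne_top ENNReal.ofReal_ne_top
      (en_map_real (A i) θ h).1] at h2
  refine h2.trans ?_
  rw [Dr_eq]
  have h3 : ∀ i, (ENNReal.ofReal (w i) * en (θ.map (circ (A i)))).toReal ≤
      w i * ((en θ).toReal + 2 * ∫ x : S1, Real.log ‖lin (A i) (x : ℂ)‖ ∂θ) := by
    intro i
    rw [ENNReal.toReal_mul, ENNReal.toReal_ofReal (hw.pos i).le]
    exact mul_le_mul_of_nonneg_left (en_map_real (A i) θ h).2 (hw.pos i).le
  refine (Finset.sum_le_sum fun i _ => h3 i).trans (le_of_eq ?_)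
  simp_rw [mul_add, Finset.sum_add_distrib, ← Finset.sum_mul, hw.sum, one_mul, Finset.mul_sum]
  congr 1
  refine Finset.sum_congr rfl fun i _ => ?_
  ring

/-- the chain -/
def ch (w : ι → ℝ) (A : ι → SL(2, ℝ)) (θ : Measure S1) : ℕ → Measure S1
  | 0 => θ
  | n + 1 => stp w A (ch w A θ n)

lemma ch_prob {w : ι → ℝ} (A : ι → SL(2, ℝ)) (hw : IsWt w) (θ : Measure S1)
    [IsProbabilityMeasure θ] (n : ℕ) : IsProbabilityMeasure (ch w A θ n) := by
  induction n with
  | zero => exact ‹_›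
  | succ n ih => exact stp_prob A hw _

lemma ch_en {w : ι → ℝ} (A : ι → SL(2, ℝ)) (hw : IsWt w) (θ : Measure S1)
    [IsProbabilityMeasure θ] (h : en θ ≠ ⊤) (n : ℕ) : en (ch w A θ n) ≠ ⊤ := by
  induction n with
  | zero => exact h
  | succ n ih =>
    have := ch_prob A hw θ n
    exact (en_step A hw _ 0 ih).1

lemma ch_sum {w : ι → ℝ} (A : ι → SL(2, ℝ)) (hw : IsWt w) (θ : Measure S1)
    [IsProbabilityMeasure θ] (h : en θ ≠ ⊤) (J n : ℕ) :
    (en (ch w A θ n)).toReal +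
      ∑ k ∈ Finset.range n, ∑ j ∈ Finset.range J, Vj w A j (ch w A θ k) ≤
      (en θ).toReal + 2 * ∑ k ∈ Finset.range n, Dr w A (ch w A θ k) := by
  induction n with
  | zero => simp [ch]
  | succ n ih =>
    have := ch_prob A hw θ n
    have h1 := (en_step A hw (ch w A θ n) J (ch_en A hw θ h n)).2
    rw [Finset.sum_range_succ, Finset.sum_range_succ]
    show (en (stp w A (ch w A θ n))).toReal + _ ≤ _
    linarith

/-- Cesàro averages -/
def ces (w : ι → ℝ) (A : ι → SL(2, ℝ)) (θ : Measure S1) (n : ℕ) : Measure S1 :=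
  ENNReal.ofReal (1 / ((n : ℝ) + 1)) • ∑ k ∈ Finset.range (n + 1), ch w A θ k

lemma ces_prob {w : ι → ℝ} (A : ι → SL(2, ℝ)) (hw : IsWt w) (θ : Measure S1)
    [IsProbabilityMeasure θ] (n : ℕ) : IsProbabilityMeasure (ces w A θ n) := by
  constructor
  unfold ces
  rw [Measure.smul_apply, Measure.finsetSum_apply]
  have h1 : ∀ k, (ch w A θ k) Set.univ = 1 := fun k => (ch_prob A hw θ k).measure_univ
  simp_rw [h1]
  rw [Finset.sum_const, Finset.card_range, smul_eq_mul, nsmul_eq_mul, mul_one,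
    ← ENNReal.ofReal_natCast, ← ENNReal.ofReal_mul (by positivity)]
  push_cast
  rw [one_div, inv_mul_cancel₀ (by positivity), ENNReal.ofReal_one]

lemma integral_ces {w : ι → ℝ} (A : ι → SL(2, ℝ)) (hw : IsWt w) (θ : Measure S1)
    [IsProbabilityMeasure θ] (n : ℕ) {f : S1 → ℝ} (hf : Continuous f) :
    ∫ x, f x ∂(ces w A θ n) =
      1 / ((n : ℝ) + 1) * ∑ k ∈ Finset.range (n + 1), ∫ x, f x ∂(ch w A θ k) := by
  unfold ces
  rw [integral_smul_measure, ENNReal.toReal_ofReal (by positivity), smul_eq_mul,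
    integral_finsetSum_measure]
  intro k _
  have := ch_prob A hw θ k
  exact integrable_of_cont _ hf

/-- the difference functions -/
def dfn (A : ι → SL(2, ℝ)) (a b : ℕ) (i k : ι) (x : S1) : ℝ :=
  mon a b (circ (A i) x) - mon a b (circ (A k) x)

omit [Fintype ι] in
lemma continuous_dfn (A : ι → SL(2, ℝ)) (a b : ℕ) (i k : ι) : Continuous (dfn A a b i k) :=
  ((continuous_mon a b).comp (continuous_circ _)).sub ((continuous_mon a b).comp (continuous_circ _))

lemma mo_map (g : SL(2, ℝ)) (a b : ℕ) (θ : Measure S1) :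
    mo a b (θ.map (circ g)) = ∫ x, mon a b (circ g x) ∂θ := by
  unfold mo
  exact integral_map (measurable_circ g).aemeasurable
    (continuous_mon a b).measurable.aestronglyMeasurable

omit [Fintype ι] in
lemma mo_sub (A : ι → SL(2, ℝ)) (a b : ℕ) (i k : ι) (θ : Measure S1) [IsProbabilityMeasure θ] :
    mo a b (θ.map (circ (A i))) - mo a b (θ.map (circ (A k))) = ∫ x, dfn A a b i k x ∂θ := by
  rw [mo_map, mo_map]
  unfold dfn
  rw [integral_sub]
  · exact integrable_of_cont θ ((continuous_mon a b).comp (continuous_circ _))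
  · exact integrable_of_cont θ ((continuous_mon a b).comp (continuous_circ _))

lemma Vj_eq (w : ι → ℝ) (A : ι → SL(2, ℝ)) (j : ℕ) (θ : Measure S1) [IsProbabilityMeasure θ] :
    Vj w A j θ = ∑ a ∈ Finset.range (2 * (j + 1) + 1), cf j a * ((1 / 2) * ∑ i, ∑ k, w i * w k *
      (∫ x, dfn A a (2 * (j + 1) - a) i k x ∂θ) ^ 2) := by
  unfold Vj
  simp_rw [mo_sub]

lemma sq_ces {w : ι → ℝ} (A : ι → SL(2, ℝ)) (hw : IsWt w) (θ : Measure S1)
    [IsProbabilityMeasure θ] (n : ℕ) {f : S1 → ℝ} (hf : Continuous f) :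
    (∫ x, f x ∂(ces w A θ n)) ^ 2 ≤
      1 / ((n : ℝ) + 1) * ∑ k ∈ Finset.range (n + 1), (∫ x, f x ∂(ch w A θ k)) ^ 2 := by
  rw [integral_ces A hw θ n hf, mul_pow]
  have h1 := sq_sum_le_card_mul_sum_sq (s := Finset.range (n + 1))
    (f := fun k => ∫ x, f x ∂(ch w A θ k))
  rw [Finset.card_range] at h1
  have h2 : (0 : ℝ) ≤ (1 / ((n : ℝ) + 1)) ^ 2 := by positivity
  refine (mul_le_mul_of_nonneg_left h1 h2).trans (le_of_eq ?_)
  push_cast
  field_simp

lemma Vj_ces {w : ι → ℝ} (A : ι → SL(2, ℝ)) (hw : IsWt w) (θ : Measure S1)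
    [IsProbabilityMeasure θ] (j n : ℕ) :
    Vj w A j (ces w A θ n) ≤ 1 / ((n : ℝ) + 1) * ∑ k ∈ Finset.range (n + 1),
      Vj w A j (ch w A θ k) := by
  have hp := ces_prob A hw θ n
  have e1 : ∀ m, Vj w A j (ch w A θ m) = ∑ a ∈ Finset.range (2 * (j + 1) + 1), cf j a *
      ((1 / 2) * ∑ i, ∑ k, w i * w k *
      (∫ x, dfn A a (2 * (j + 1) - a) i k x ∂(ch w A θ m)) ^ 2) := by
    intro m
    have := ch_prob A hw θ m
    exact Vj_eq w A j _
  rw [Vj_eq]
  simp_rw [e1]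
  rw [Finset.sum_comm, Finset.mul_sum]
  refine Finset.sum_le_sum fun a ha => ?_
  have hc := cf_pos (j := j) (a := a) (by simpa [Nat.lt_succ_iff] using ha)
  rw [← Finset.mul_sum, ← Finset.mul_sum, Finset.sum_comm (s := Finset.range (n + 1))]
  have h1 : 1 / ((n : ℝ) + 1) * (cf j a * (1 / 2 * ∑ i, ∑ m ∈ Finset.range (n + 1),
      ∑ k, w i * w k * (∫ x, dfn A a (2 * (j + 1) - a) i k x ∂(ch w A θ m)) ^ 2)) =
      cf j a * (1 / 2 * ∑ i, ∑ k, w i * w k * (1 / ((n : ℝ) + 1) *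
        ∑ m ∈ Finset.range (n + 1), (∫ x, dfn A a (2 * (j + 1) - a) i k x ∂(ch w A θ m)) ^ 2)) := by
    rw [mul_left_comm, mul_left_comm (1 / ((n : ℝ) + 1)), Finset.mul_sum]
    congr 2
    refine Finset.sum_congr rfl fun i _ => ?_
    rw [Finset.sum_comm, Finset.mul_sum]
    refine Finset.sum_congr rfl fun k _ => ?_
    rw [← Finset.mul_sum]
    ring
  rw [h1]
  refine mul_le_mul_of_nonneg_left (mul_le_mul_of_nonneg_left ?_ (by norm_num)) hc.le
  refine Finset.sum_le_sum fun i _ => Finset.sum_le_sum fun k _ => ?_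
  exact mul_le_mul_of_nonneg_left (sq_ces A hw θ n (continuous_dfn A _ _ i k))
    (mul_nonneg (hw.pos i).le (hw.pos k).le)

lemma cont_drift (w : ι → ℝ) (A : ι → SL(2, ℝ)) :
    Continuous fun x : S1 => ∑ i, w i * Real.log ‖lin (A i) (x : ℂ)‖ :=
  continuous_finsetSum _ fun i _ => continuous_const.mul (cont_log_lin (A i))

/-- the key inequality for the Cesàro averages -/
lemma key_ces {w : ι → ℝ} (A : ι → SL(2, ℝ)) (hw : IsWt w) (θ : Measure S1)
    [IsProbabilityMeasure θ] (h : en θ ≠ ⊤) (J n : ℕ) :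
    ∑ j ∈ Finset.range J, Vj w A j (ces w A θ n) ≤
      1 / ((n : ℝ) + 1) * (en θ).toReal + 2 * Dr w A (ces w A θ n) := by
  have h1 : ∑ j ∈ Finset.range J, Vj w A j (ces w A θ n) ≤ 1 / ((n : ℝ) + 1) *
      ∑ k ∈ Finset.range (n + 1), ∑ j ∈ Finset.range J, Vj w A j (ch w A θ k) := by
    rw [Finset.sum_comm, Finset.mul_sum]
    exact Finset.sum_le_sum fun j _ => Vj_ces A hw θ j n
  have h2 := ch_sum A hw θ h J (n + 1)
  have h3 : 0 ≤ (en (ch w A θ (n + 1))).toReal := ENNReal.toReal_nonneg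
  have h4 : Dr w A (ces w A θ n) = 1 / ((n : ℝ) + 1) * ∑ k ∈ Finset.range (n + 1),
      Dr w A (ch w A θ k) := integral_ces A hw θ n (cont_drift w A)
  refine h1.trans ?_
  rw [h4]
  have h5 : (0 : ℝ) ≤ 1 / ((n : ℝ) + 1) := by positivity
  have h6 := mul_le_mul_of_nonneg_left (a := 1 / ((n : ℝ) + 1)) (by linarith : ∑ k ∈ Finset.range (n + 1),
    ∑ j ∈ Finset.range J, Vj w A j (ch w A θ k) ≤ (en θ).toReal +
    2 * ∑ k ∈ Finset.range (n + 1), Dr w A (ch w A θ k)) h5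
  refine h6.trans (le_of_eq ?_)
  ring

end FA

end

end Pool.Agent.Helper97.Fuchs
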